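import Pool.Agent.R944.Tysz.Sys

/-!
# Small rational solutions of systems of equations `x_i = 1` and `x_i + x_j = x_k`

Every system of equations of the forms `x_i = 1` and `x_i + x_j = x_k` in `n` unknowns which has a
complex solution has a rational solution with all coordinates in `[-2^(n-1), 2^(n-1)]`.

Proof. Choose a basis of the row space among the rows, and a nonzero minor of maximal order; set the
other unknowns equal to `0` and use Cramer's rule. The determinants are bounded by the inequality
`|det A| ≤ ∏ M_i`, where `M_i` bounds the sum of the positive entries of row `i` and the sum of the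
absolute values of its negative entries (C. R. Johnson and M. Newman): a row of `x_i + x_j - x_k`
has `M_i = 2`, and a row of `x_i = 1` has `M_i = 1`, also after the right-hand side, with the sign
changed, has been substituted for a column.
-/

set_option autoImplicit false

open Pool.Agent.R944.Tysz

namespace Pool.Agent.Results.MP_e9426e_al.SmallRationalSolutions

/-- **Q1, affirmative.** For all complex numbers `x_1, …, x_n` there are rational numbers
`y_1, …, y_n` in `[-2^(n-1), 2^(n-1)]` such that `x_i = 1` implies `y_i = 1`, and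
`x_i + x_j = x_k` implies `y_i + y_j = y_k`. -/
theorem result (n : ℕ) (x : Fin n → ℂ) :
    ∃ y : Fin n → ℚ, (∀ i, -(2 : ℚ) ^ (n - 1) ≤ y i ∧ y i ≤ 2 ^ (n - 1)) ∧
      (∀ i, x i = 1 → y i = 1) ∧ (∀ i j k, x i + x j = x k → y i + y j = y k) := by
  let ι := {i : Fin n // x i = 1} ⊕ {t : Fin n × Fin n × Fin n // x t.1 + x t.2.1 = x t.2.2}
  let a : ι → Fin n → ℤ := fun e =>
    match e with
    | .inl i => rowU i.1
    | .inr t => rowA t.1.1 t.1.2.1 t.1.2.2
  let b : ι → ℤ := fun e =>
    match e with
    | .inl _ => 1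
    | .inr _ => 0
  obtain ⟨D, p, hD, _, hp, hsol⟩ := rational_main a b x
    (fun e => by
      rcases e with i | t
      · show ∑ k, ((rowU i.1 k : ℤ) : ℂ) * x k = ((1 : ℤ) : ℂ)
        rw [eval_rowU, i.2]; simp
      · show ∑ k, ((rowA t.1.1 t.1.2.1 t.1.2.2 k : ℤ) : ℂ) * x k = ((0 : ℤ) : ℂ)
        rw [eval_rowA, t.2]; simp)
    (fun e => by
      rcases e with i | t
      · exact good_rowU i.1
      · exact good_rowA _ _ _)
  have hDq : (D : ℚ) ≠ 0 := by exact_mod_cast hD
  refine ⟨fun k => (p k : ℚ) / D, ?_, ?_, ?_⟩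
  · intro i
    rw [← abs_le, abs_div]
    have h1 : (1 : ℚ) ≤ |(D : ℚ)| := by
      rw [← Int.cast_abs]; exact_mod_cast Int.one_le_abs hD
    have h2 : |(p i : ℚ)| ≤ 2 ^ (n - 1) := by
      rw [← Int.cast_abs]; exact_mod_cast hp i
    exact le_trans (div_le_self (abs_nonneg _) h1) h2
  · intro i hi
    have h1 := hsol (.inl ⟨i, hi⟩)
    have h2 : ∑ k, ((rowU i k : ℤ) : ℤ) * p k = D * 1 := h1
    have h3 := eval_rowU (R := ℤ) i p
    simp only [Int.cast_id] at h3
    rw [h3, mul_one] at h2
    show (p i : ℚ) / D = 1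
    rw [h2]
    exact div_self hDq
  · intro i j k hijk
    have h1 := hsol (.inr ⟨(i, j, k), hijk⟩)
    have h2 : ∑ l, ((rowA i j k l : ℤ) : ℤ) * p l = D * 0 := h1
    have h3 := eval_rowA (R := ℤ) i j k p
    simp only [Int.cast_id] at h3
    rw [h3, mul_zero] at h2
    show (p i : ℚ) / D + (p j : ℚ) / D = (p k : ℚ) / D
    rw [← add_div]
    congr 1
    have h4 : p i + p j = p k := by linarith
    exact_mod_cast h4

end Pool.Agent.Results.MP_e9426e_al.SmallRationalSolutions
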